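import Pool.Agent.helper55.NM.Spec

set_option autoImplicit false

namespace Pool.Agent.helper78.NM

open Pool.Agent.NM Finset Nat

theorem PTB_lt {q : ℕ} (y : Fin q → ℝ) (hy : ∀ i, 0 < y i) (τ : Equiv.Perm (Fin q)) {j j' : ℕ} (h : j < j')
    (h' : j' ≤ q) : Yp y τ j < Yp y τ j' := by
  unfold Yp
  refine Finset.sum_lt_sum_of_subset (i := (⟨j, by omega⟩ : Fin q)) ?_ ?_ ?_ (hy _) (fun i _ _ => (hy _).le)
  · intro i hi
    rw [Finset.mem_filter] at hi ⊢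
    exact ⟨hi.1, by omega⟩
  · rw [Finset.mem_filter]
    exact ⟨Finset.mem_univ _, h⟩
  · intro h2
    rw [Finset.mem_filter] at h2
    exact lt_irrefl _ h2.2

theorem PTB_le {q : ℕ} (y : Fin q → ℝ) (hy : ∀ i, 0 < y i) (τ : Equiv.Perm (Fin q)) {j j' : ℕ} (h : j ≤ j') :
    Yp y τ j ≤ Yp y τ j' := by
  unfold Yp
  refine Finset.sum_le_sum_of_subset_of_nonneg ?_ (fun i _ _ => (hy _).le)
  intro i hi
  rw [Finset.mem_filter] at hi ⊢
  exact ⟨hi.1, by omega⟩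

theorem PTB_nonneg {q : ℕ} (y : Fin q → ℝ) (hy : ∀ i, 0 < y i) (τ : Equiv.Perm (Fin q)) (j : ℕ) :
    0 ≤ Yp y τ j := by
  unfold Yp
  exact Finset.sum_nonneg fun i _ => (hy _).le

open Classical in
theorem PTB_wt {p q : ℕ} (k : ℕ) (X : Fin p → ℝ) (y : Fin q → ℝ) (τ : Equiv.Perm (Fin q)) (hy : ∀ i, 0 < y i)
    (J : Finset (Fin p) → ℕ) (H0 : Finset (Finset (Fin p)))
    (hJ : ∀ I, (∃ j, j ≤ q ∧ I.card + j ≤ k ∧ Yp y τ j = ∑ i ∈ I, X i) →
      (J I ≤ q ∧ I.card + J I ≤ k ∧ Yp y τ (J I) = ∑ i ∈ I, X i))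
    (hm : ∀ I, I ∈ H0 ↔ I.Nonempty ∧ ∃ j, j ≤ q ∧ I.card + j ≤ k ∧ Yp y τ j = ∑ i ∈ I, X i) :
    Wt X y k τ ≤ ∑ I ∈ H0, q.choose (J I) := by
  unfold Wt
  have h1 : ∀ I ∈ univ.filter (fun I : Finset (Fin p) => I.Nonempty),
      (∑ j ∈ range (q + 1), if I.card + j ≤ k ∧ Yp y τ j = ∑ i ∈ I, X i then q.choose j else 0) ≤
        if I ∈ H0 then q.choose (J I) else 0 := by
    intro I hI
    have hIne := (Finset.mem_filter.1 hI).2
    by_cases h : I ∈ H0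
    · rw [if_pos h]
      have h2 := hJ I ((hm I).1 h).2
      calc (∑ j ∈ range (q + 1), if I.card + j ≤ k ∧ Yp y τ j = ∑ i ∈ I, X i then q.choose j else 0)
          ≤ ∑ j ∈ range (q + 1), if j = J I then q.choose j else 0 := by
            refine Finset.sum_le_sum fun j hj => ?_
            have hjq : j ≤ q := by
              have := Finset.mem_range.1 hj
              omega
            by_cases h3 : I.card + j ≤ k ∧ Yp y τ j = ∑ i ∈ I, X i
            · have h4 : j = J I := by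
                rcases lt_trichotomy j (J I) with h5 | h5 | h5
                · exact absurd (h3.2.trans h2.2.2.symm) (PTB_lt y hy τ h5 h2.1).ne
                · exact h5
                · exact absurd (h3.2.trans h2.2.2.symm) (PTB_lt y hy τ h5 hjq).ne'
              rw [if_pos h3, if_pos h4]
            · rw [if_neg h3]
              exact Nat.zero_le _
        _ ≤ q.choose (J I) := by
            rw [Finset.sum_ite_eq']
            split_ifs
            · exact le_rfl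
            · exact Nat.zero_le _
    · rw [if_neg h]
      refine le_of_eq (Finset.sum_eq_zero fun j hj => ?_)
      refine if_neg fun h3 => h ((hm I).2 ⟨hIne, j, ?_, h3.1, h3.2⟩)
      have := Finset.mem_range.1 hj
      omega
  refine (Finset.sum_le_sum h1).trans ?_
  rw [← Finset.sum_filter]
  exact Finset.sum_le_sum_of_subset (fun I hI => (Finset.mem_filter.1 hI).2)

open Classical in
theorem PTB (hGG2 : GG2_stmt) (hGG3 : GG3_stmt) (hBIN : BIN_stmt) : PTB_stmt := by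
  intro p q k L X y ε τ hX hy hp hε hpL hkq hpq hρ1 hρ2 hR hgood
  obtain ⟨ρ, hρ⟩ : ∃ ρ : ℝ, ρ = (k : ℝ) / ((p : ℝ) + q) := ⟨_, rfl⟩
  obtain ⟨R, hRd⟩ : ∃ R : ℝ, R = 1 - 2 * ε := ⟨_, rfl⟩
  obtain ⟨c, hc⟩ : ∃ c : ℝ, c = 1 - (p : ℝ) ^ 2 / ((p : ℝ) + q) := ⟨_, rfl⟩
  rw [← hρ] at hρ1 hρ2 ⊢
  rw [← hRd] at hR ⊢
  rw [← hc]
  have hp0 : (3 : ℝ) ≤ p := by exact_mod_cast hp
  have hq0 : (0 : ℝ) ≤ q := Nat.cast_nonneg _
  have hn0 : (0 : ℝ) < (p : ℝ) + q := by linarith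
  have hR0 : 0 ≤ R := by linarith
  have hR1 : R ≤ 1 := by linarith
  have hc0 : 0 ≤ c := by
    rw [hc, sub_nonneg, div_le_one hn0]
    exact_mod_cast hpq.le
  obtain ⟨J, hJ⟩ : ∃ J : Finset (Fin p) → ℕ, ∀ I, (∃ j, j ≤ q ∧ I.card + j ≤ k ∧ Yp y τ j = ∑ i ∈ I, X i) →
      (J I ≤ q ∧ I.card + J I ≤ k ∧ Yp y τ (J I) = ∑ i ∈ I, X i) := by
    refine ⟨fun I => if h : ∃ j, j ≤ q ∧ I.card + j ≤ k ∧ Yp y τ j = ∑ i ∈ I, X i then h.choose else 0, ?_⟩
    intro I hI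
    simp only [dif_pos hI]
    exact hI.choose_spec
  obtain ⟨H0, hH0⟩ : ∃ H0 : Finset (Finset (Fin p)),
      H0 = univ.filter (fun I => I.Nonempty ∧ ∃ j, j ≤ q ∧ I.card + j ≤ k ∧ Yp y τ j = ∑ i ∈ I, X i) := ⟨_, rfl⟩
  have hm : ∀ I, I ∈ H0 ↔ I.Nonempty ∧ ∃ j, j ≤ q ∧ I.card + j ≤ k ∧ Yp y τ j = ∑ i ∈ I, X i := by
    intro I
    rw [hH0, Finset.mem_filter]
    exact ⟨fun h => h.2, fun h => ⟨Finset.mem_univ _, h⟩⟩
  obtain ⟨d, hd⟩ : ∃ d : Finset (Fin p) → ℕ, ∀ I, d I = k - I.card - J I := ⟨fun I => k - I.card - J I, fun _ => rfl⟩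
  have hWt := PTB_wt k X y τ hy J H0 hJ hm
  have hcardp : ∀ I : Finset (Fin p), I.card ≤ p := by
    intro I
    have := Finset.card_le_univ I
    rw [Fintype.card_fin] at this
    exact this
  have hterm : ∀ I ∈ H0, c * (q.choose (J I) : ℝ) ≤
      ρ ^ I.card * (1 - ρ) ^ (p - I.card) * R ^ d I * ((p + q).choose k : ℝ) := by
    intro I hI
    have h2 := hJ I ((hm I).1 hI).2
    have h5 := hd I
    have h3 := hBIN p q k I.card (d I) R (hcardp I) (by omega) hkq hpq hR0 hR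
    have h4 : k - I.card - d I = J I := by omega
    rw [h4, ← hρ, ← hc] at h3
    exact h3
  have hsum : c * (Wt X y k τ : ℝ) ≤
      ∑ I ∈ H0, ρ ^ I.card * (1 - ρ) ^ (p - I.card) * R ^ d I * ((p + q).choose k : ℝ) := by
    calc c * (Wt X y k τ : ℝ) ≤ c * ((∑ I ∈ H0, q.choose (J I) : ℕ) : ℝ) :=
          mul_le_mul_of_nonneg_left (by exact_mod_cast hWt) hc0
      _ = ∑ I ∈ H0, c * (q.choose (J I) : ℝ) := by
          push_cast
          rw [Finset.mul_sum]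
      _ ≤ _ := Finset.sum_le_sum hterm
  obtain ⟨S, hS⟩ : ∃ S : Finset (Fin p), S = univ.filter (fun e => ((p : ℝ) + 1) * X e < Yp y τ k) := ⟨_, rfl⟩
  have hSm : ∀ e, e ∈ S ↔ ((p : ℝ) + 1) * X e < Yp y τ k := by
    intro e
    rw [hS, Finset.mem_filter]
    exact ⟨fun h => h.2, fun h => ⟨Finset.mem_univ _, h⟩⟩
  obtain ⟨H, hH⟩ : ∃ H : Finset (Finset (Fin p)), H = H0.filter (fun I => d I ≤ L) := ⟨_, rfl⟩
  have hHm : ∀ I ∈ H, I ∈ H0 ∧ d I ≤ L := by
    intro I hI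
    rw [hH] at hI
    exact Finset.mem_filter.1 hI
  have hgood' : ((p : ℝ) + 1) * (Yp y τ k - Yp y τ (k - (p + L))) < Yp y τ k := by
    have := not_le.1 hgood
    push_cast at this
    exact this
  have hYk0 := PTB_nonneg y hy τ k
  have hp1 : (0 : ℝ) < (p : ℝ) + 1 := by linarith
  have hlow : ∀ I ∈ H, ((p : ℝ) + 1) * (Yp y τ k - ∑ i ∈ I, X i) < Yp y τ k ∧ ∑ i ∈ I, X i ≤ Yp y τ k := by
    intro I hI
    obtain ⟨h1, h2⟩ := hHm I hI
    obtain ⟨h3, h4, h5⟩ := hJ I ((hm I).1 h1).2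
    have h6 := hd I
    have h7 := hcardp I
    rw [← h5]
    refine ⟨lt_of_le_of_lt (mul_le_mul_of_nonneg_left ?_ hp1.le) hgood', PTB_le y hy τ (by omega)⟩
    have h8 := PTB_le y hy τ (show k - (p + L) ≤ J I by omega)
    linarith
  have hHyp : Hyp p S H d := by
    refine ⟨?_, ?_, ?_⟩
    · intro I hI hIS
      obtain ⟨h1, -⟩ := hlow I hI
      have hne := ((hm I).1 (hHm I hI).1).1
      have h2 : ∑ i ∈ I, ((p : ℝ) + 1) * X i < ∑ i ∈ I, Yp y τ k :=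
        Finset.sum_lt_sum_of_nonempty hne fun i hi => (hSm i).1 (hIS hi)
      rw [← Finset.mul_sum, Finset.sum_const, nsmul_eq_mul] at h2
      have h3 : ((I.card : ℕ) : ℝ) ≤ p := by exact_mod_cast hcardp I
      have h4 : ((I.card : ℕ) : ℝ) * Yp y τ k ≤ p * Yp y τ k := mul_le_mul_of_nonneg_right h3 hYk0
      have h5 : ((p : ℝ) + 1) * (Yp y τ k - ∑ i ∈ I, X i) =
          p * Yp y τ k + Yp y τ k - ((p : ℝ) + 1) * ∑ i ∈ I, X i := by ring
      linarith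
    · intro I₁ hI₁ I₂ hI₂ hcap hsub
      by_contra hne
      obtain ⟨e, he2, he1⟩ := Finset.exists_of_ssubset (lt_of_le_of_ne hsub hne)
      have heS : e ∉ S := by
        intro heS
        have h1 : e ∈ I₂ ∩ S := Finset.mem_inter.2 ⟨he2, heS⟩
        rw [← hcap] at h1
        exact he1 (Finset.mem_inter.1 h1).1
      have h1 : Yp y τ k ≤ ((p : ℝ) + 1) * X e := not_lt.1 fun h => heS ((hSm e).2 h)
      have h2 : ∑ i ∈ I₁, X i + X e ≤ ∑ i ∈ I₂, X i := by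
        have h3 : ∑ i ∈ insert e I₁, X i ≤ ∑ i ∈ I₂, X i := by
          refine Finset.sum_le_sum_of_subset_of_nonneg ?_ (fun i _ _ => (hX i).le)
          intro i hi
          rcases Finset.mem_insert.1 hi with h | h
          · rw [h]
            exact he2
          · exact hsub h
        rw [Finset.sum_insert he1] at h3
        linarith
      have h4 := (hlow I₁ hI₁).1
      have h5 := (hlow I₂ hI₂).2
      have h6 : ((p : ℝ) + 1) * (Yp y τ k - ∑ i ∈ I₁, X i) < ((p : ℝ) + 1) * X e := lt_of_lt_of_le h4 h1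
      have h7 := lt_of_mul_lt_mul_left h6 hp1.le
      linarith
    · intro I₁ hI₁ I₂ hI₂ hss
      obtain ⟨h3, h4, h5⟩ := hJ I₁ ((hm I₁).1 (hHm I₁ hI₁).1).2
      obtain ⟨h3', h4', h5'⟩ := hJ I₂ ((hm I₂).1 (hHm I₂ hI₂).1).2
      have h6 : ∑ i ∈ I₁, X i < ∑ i ∈ I₂, X i := by
        obtain ⟨e, he2, he1⟩ := Finset.exists_of_ssubset hss
        exact Finset.sum_lt_sum_of_subset hss.1 he2 he1 (hX e) (fun i _ _ => (hX i).le)
      have h7 : J I₁ < J I₂ := by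
        by_contra h
        have h8 := PTB_le y hy τ (not_lt.1 h)
        rw [h5, h5'] at h8
        linarith
      have h8 := Finset.card_lt_card hss
      have h9 := hd I₁
      have h10 := hd I₂
      omega
  have hmain : ∑ I ∈ H, ρ ^ I.card * (1 - ρ) ^ (p - I.card) * R ^ d I ≤ (1 - ε) * (2 * ρ * (1 - ρ)) := by
    by_cases h : (univ \ S).card ≤ 2
    · exact hGG2 p S H d ε ρ R hHyp hε hρ1 hρ2 hR0 hRd.le hp h
    · exact hGG3 p S H d ε ρ R hHyp hε hρ1 hρ2 hR0 hRd.le (by omega)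
  have hC0 : (0 : ℝ) ≤ ((p + q).choose k : ℝ) := Nat.cast_nonneg _
  have hρ0 : 0 ≤ ρ := by linarith
  have hρ3 : 0 ≤ 1 - ρ := by linarith
  have hmu : ∀ I : Finset (Fin p), 0 ≤ ρ ^ I.card * (1 - ρ) ^ (p - I.card) :=
    fun I => mul_nonneg (pow_nonneg hρ0 _) (pow_nonneg hρ3 _)
  have hrest : ∑ I ∈ H0.filter (fun I => ¬ d I ≤ L), ρ ^ I.card * (1 - ρ) ^ (p - I.card) * R ^ d I ≤ R ^ L := by
    calc ∑ I ∈ H0.filter (fun I => ¬ d I ≤ L), ρ ^ I.card * (1 - ρ) ^ (p - I.card) * R ^ d I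
        ≤ ∑ I ∈ H0.filter (fun I => ¬ d I ≤ L), ρ ^ I.card * (1 - ρ) ^ (p - I.card) * R ^ L := by
          refine Finset.sum_le_sum fun I hI => mul_le_mul_of_nonneg_left ?_ (hmu I)
          have h1 := (Finset.mem_filter.1 hI).2
          exact pow_le_pow_of_le_one hR0 hR1 (by omega)
      _ ≤ ∑ I : Finset (Fin p), ρ ^ I.card * (1 - ρ) ^ (p - I.card) * R ^ L :=
          Finset.sum_le_sum_of_subset_of_nonneg (Finset.subset_univ _)
            (fun I _ _ => mul_nonneg (hmu I) (pow_nonneg hR0 _))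
      _ = R ^ L := by
          rw [← Finset.sum_mul]
          have h1 := Fintype.sum_pow_mul_eq_add_pow (Fin p) ρ (1 - ρ)
          rw [Fintype.card_fin] at h1
          rw [h1, add_sub_cancel, one_pow, one_mul]
  calc c * (Wt X y k τ : ℝ)
      ≤ ∑ I ∈ H0, ρ ^ I.card * (1 - ρ) ^ (p - I.card) * R ^ d I * ((p + q).choose k : ℝ) := hsum
    _ = (∑ I ∈ H, ρ ^ I.card * (1 - ρ) ^ (p - I.card) * R ^ d I +
          ∑ I ∈ H0.filter (fun I => ¬ d I ≤ L), ρ ^ I.card * (1 - ρ) ^ (p - I.card) * R ^ d I) *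
            ((p + q).choose k : ℝ) := by
        rw [hH, Finset.sum_filter_add_sum_filter_not, Finset.sum_mul]
    _ ≤ ((1 - ε) * (2 * ρ * (1 - ρ)) + R ^ L) * ((p + q).choose k : ℝ) :=
        mul_le_mul_of_nonneg_right (add_le_add hmain hrest) hC0

end Pool.Agent.helper78.NM
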